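import Pool.Agent.Helper6.EA.Defs

/-!
# Few connected tuples
-/

set_option autoImplicit false

namespace Pool.Agent.Helper6.EA

variable {V : Type} [Fintype V]

open Classical in
/-- the elements which are reached in `k` steps -/
noncomputable def reach6 (E : V → V → Prop) (x : V) : ℕ → Finset V
  | 0 => {x}
  | k + 1 => (reach6 E x k).biUnion (fun y => Finset.univ.filter (fun z => E y z))

open Classical in
/-- EA8: few connected tuples -/
theorem conn_card6 {r Δ : ℕ} {E : V → V → Prop} (hE : ∀ x, E x x) (hs : ∀ x y, E x y → E y x)
    (hΔ : ∀ x, (Finset.univ.filter (fun y => E x y)).card ≤ Δ) (x : V) :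
    Nat.card {u : Fin (r + 1) → V // Conn E u ∧ u 0 = x} ≤ cB r Δ := by
  have hcard : ∀ k, (reach6 E x k).card ≤ Δ ^ k := by
    intro k
    induction k with
    | zero => show ({x} : Finset V).card ≤ _; simp
    | succ k ih =>
      show ((reach6 E x k).biUnion (fun y => Finset.univ.filter (fun z => E y z))).card ≤ _
      refine (Finset.card_biUnion_le_card_mul _ _ Δ (fun y _ => hΔ y)).trans ?_
      rw [pow_succ]
      exact Nat.mul_le_mul_right _ ih
  have hstep : ∀ k, ∀ y ∈ reach6 E x k, ∀ z, E y z → z ∈ reach6 E x (k + 1) := by
    intro k y hy z hz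
    show z ∈ (reach6 E x k).biUnion (fun y => Finset.univ.filter (fun z => E y z))
    rw [Finset.mem_biUnion]
    exact ⟨y, hy, Finset.mem_filter.2 ⟨Finset.mem_univ _, hz⟩⟩
  have hreach : ∀ u : Fin (r + 1) → V, Conn E u → u 0 = x → ∀ j, u j ∈ reach6 E x r := by
    intro u hu h0
    have key : ∀ k, k ≤ r → k + 1 ≤ (Finset.univ.filter (fun i => u i ∈ reach6 E x k)).card := by
      intro k
      induction k with
      | zero =>
        intro _
        refine Finset.card_pos.2 ⟨0, Finset.mem_filter.2 ⟨Finset.mem_univ _, ?_⟩⟩
        show u 0 ∈ ({x} : Finset V)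
        rw [h0]
        exact Finset.mem_singleton_self x
      | succ k ih =>
        intro hk
        have h1 := ih (by omega)
        have hsub : Finset.univ.filter (fun i => u i ∈ reach6 E x k) ⊆
            Finset.univ.filter (fun i => u i ∈ reach6 E x (k + 1)) := by
          intro i hi
          rw [Finset.mem_filter] at hi ⊢
          exact ⟨hi.1, hstep k _ hi.2 _ (hE _)⟩
        by_cases hall : ∀ j, u j ∈ reach6 E x k
        · have : Finset.univ.filter (fun i => u i ∈ reach6 E x (k + 1)) = Finset.univ := by
            rw [Finset.filter_eq_self]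
            intro i _
            exact hstep k _ (hall i) _ (hE _)
          rw [this, Finset.card_univ, Fintype.card_fin]
          omega
        · push Not at hall
          obtain ⟨i0, hi0⟩ : (Finset.univ.filter (fun i => u i ∈ reach6 E x k)).Nonempty :=
            Finset.card_pos.1 (by omega)
          obtain ⟨i, j, hi, hj, hij⟩ := hu (fun i => u i ∈ reach6 E x k) ⟨i0, (Finset.mem_filter.1 hi0).2⟩ hall
          have hlt : (Finset.univ.filter (fun i => u i ∈ reach6 E x k)).card <
              (Finset.univ.filter (fun i => u i ∈ reach6 E x (k + 1))).card := by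
            apply Finset.card_lt_card
            rw [Finset.ssubset_iff_of_subset hsub]
            refine ⟨j, Finset.mem_filter.2 ⟨Finset.mem_univ _, hstep k _ hi _ hij⟩, ?_⟩
            intro h
            exact hj (Finset.mem_filter.1 h).2
          omega
    have h2 := key r le_rfl
    have h3 : Finset.univ.filter (fun i => u i ∈ reach6 E x r) = Finset.univ := by
      apply Finset.eq_univ_of_card
      rw [Fintype.card_fin]
      refine le_antisymm ?_ h2
      refine (Finset.card_filter_le _ _).trans ?_
      rw [Finset.card_univ, Fintype.card_fin]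
    intro j
    have : j ∈ Finset.univ.filter (fun i => u i ∈ reach6 E x r) := by
      rw [h3]
      exact Finset.mem_univ _
    exact (Finset.mem_filter.1 this).2
  have h4 : Nat.card {u : Fin (r + 1) → V // Conn E u ∧ u 0 = x} ≤
      (Fintype.piFinset (fun _ : Fin (r + 1) => reach6 E x r)).card := by
    rw [Nat.card_eq_fintype_card, Fintype.card_subtype]
    apply Finset.card_le_card
    intro u hu
    rw [Finset.mem_filter] at hu
    rw [Fintype.mem_piFinset]
    exact hreach u hu.2.1 hu.2.2
  refine h4.trans ?_
  rw [Fintype.card_piFinset, Finset.prod_const, Finset.card_univ, Fintype.card_fin]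
  exact Nat.pow_le_pow_left (hcard r) _

end Pool.Agent.Helper6.EA
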