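import Pool.Agent.Helper6.EA.Same

/-!
# Minority patterns of tuples which split
-/

set_option autoImplicit false

namespace Pool.Agent.Helper6.EA

open FirstOrder Pool.Agent.Helper20.Spectra Pool.Agent.Helper31.QD Pool.Agent.Helper38.MC
  Pool.Agent.Helper58.QD Pool.Agent.Helper40.MC Pool.Agent.Helper6.MC

variable {S : Type} {ar : S → ℕ} {V : Type} [Fintype V]

lemma oA_map {R : Interp S ar V} {A : Finset V} {g : Equiv.Perm V} (hg : g ∈ GA R A) (x : V) :
    oA R A (g x) = oA R A x := by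
  ext y
  unfold oA
  rw [mem_orb', mem_orb']
  constructor
  · rintro ⟨h, hh, rfl⟩
    exact ⟨h * g, GS_mul hh hg, rfl⟩
  · rintro ⟨h, hh, rfl⟩
    refine ⟨h * g⁻¹, GS_mul hh (GS_inv hg), ?_⟩
    rw [Equiv.Perm.mul_apply]
    congr 1
    exact g.symm_apply_apply x

open Classical in
/-- few elements of the group move `x` to a neighbour of `y` -/
lemma near_card {R : Interp S ar V} {A : Finset V} {E : V → V → Prop} {Δ : ℕ} (hs : ∀ x y, E x y → E y x)
    (hd : ∀ x, (Finset.univ.filter (fun y => E x y)).card ≤ Δ) (x y : V) :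
    ((GA R A).filter fun g : Equiv.Perm V => E (g x) y).card * (oA R A x).card ≤ Δ * (GA R A).card := by
  have h1 : ((GA R A).filter fun g : Equiv.Perm V => E (g x) y) ⊆
      (Finset.univ.filter (fun z => E y z)).biUnion (fun z => (GA R A).filter fun g : Equiv.Perm V => g x = z) := by
    intro g hg
    rw [Finset.mem_filter] at hg
    rw [Finset.mem_biUnion]
    exact ⟨g x, Finset.mem_filter.2 ⟨Finset.mem_univ _, hs _ _ hg.2⟩, Finset.mem_filter.2 ⟨hg.1, rfl⟩⟩
  calc ((GA R A).filter fun g : Equiv.Perm V => E (g x) y).card * (oA R A x).card ≤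
      (∑ z ∈ Finset.univ.filter (fun z => E y z), ((GA R A).filter fun g : Equiv.Perm V => g x = z).card) *
        (oA R A x).card := Nat.mul_le_mul_right _ ((Finset.card_le_card h1).trans Finset.card_biUnion_le)
    _ = ∑ z ∈ Finset.univ.filter (fun z => E y z), ((GA R A).filter fun g : Equiv.Perm V => g x = z).card *
        (oA R A x).card := Finset.sum_mul _ _ _
    _ ≤ ∑ z ∈ Finset.univ.filter (fun z => E y z), (GA R A).card :=
        Finset.sum_le_sum (fun z _ => stab_card (AuG R) A x z)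
    _ = (Finset.univ.filter (fun z => E y z)).card * (GA R A).card := by rw [Finset.sum_const, smul_eq_mul]
    _ ≤ Δ * (GA R A).card := Nat.mul_le_mul_right _ (hd y)

open Classical in
/-- few elements of the group move a tuple near to `Y` -/
lemma bad_card {r : ℕ} {R : Interp S ar V} {A : Finset V} {E : V → V → Prop} {Δ T' : ℕ} (hr : ∀ x, E x x)
    (hs : ∀ x y, E x y → E y x) (hd : ∀ x, (Finset.univ.filter (fun y => E x y)).card ≤ Δ)
    (hT : 4 * (r + 1) ^ 2 * Δ ≤ T') {u : Fin (r + 1) → V} (hO : ∀ i, T' < (oA R A (u i)).card) (Y : Finset V) :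
    4 * (r + 1) * ((GA R A).filter fun g : Equiv.Perm V => ∃ i, ∃ y ∈ Y, E (g (u i)) y).card ≤
      Y.card * (GA R A).card := by
  have hΔ : 1 ≤ Δ := by
    refine le_trans ?_ (hd (u 0))
    exact Finset.card_pos.2 ⟨u 0, Finset.mem_filter.2 ⟨Finset.mem_univ _, hr _⟩⟩
  have h1 : ∀ i y, 4 * (r + 1) ^ 2 * ((GA R A).filter fun g : Equiv.Perm V => E (g (u i)) y).card ≤
      (GA R A).card := by
    intro i y
    have h2 := near_card (R := R) (A := A) hs hd (u i) y
    obtain ⟨c, hc⟩ : ∃ c, c = ((GA R A).filter fun g : Equiv.Perm V => E (g (u i)) y).card := ⟨_, rfl⟩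
    rw [← hc] at h2 ⊢
    have h3 : c * (4 * (r + 1) ^ 2 * Δ) ≤ Δ * (GA R A).card :=
      (Nat.mul_le_mul_left c (hT.trans (hO i).le)).trans h2
    have h4 : Δ * (4 * (r + 1) ^ 2 * c) ≤ Δ * (GA R A).card := by
      calc Δ * (4 * (r + 1) ^ 2 * c) = c * (4 * (r + 1) ^ 2 * Δ) := by ring
        _ ≤ _ := h3
    exact Nat.le_of_mul_le_mul_left h4 hΔ
  have h5 : ((GA R A).filter fun g : Equiv.Perm V => ∃ i, ∃ y ∈ Y, E (g (u i)) y) ⊆
      ((Finset.univ : Finset (Fin (r + 1))) ×ˢ Y).biUnion
        (fun q => (GA R A).filter fun g : Equiv.Perm V => E (g (u q.1)) q.2) := by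
    intro g hg
    rw [Finset.mem_filter] at hg
    obtain ⟨hg, i, y, hy, h⟩ := hg
    rw [Finset.mem_biUnion]
    exact ⟨(i, y), Finset.mem_product.2 ⟨Finset.mem_univ _, hy⟩, Finset.mem_filter.2 ⟨hg, h⟩⟩
  have h6 : (r + 1) * (4 * (r + 1) *
      ((GA R A).filter fun g : Equiv.Perm V => ∃ i, ∃ y ∈ Y, E (g (u i)) y).card) ≤
      (r + 1) * (Y.card * (GA R A).card) := by
    calc (r + 1) * (4 * (r + 1) * ((GA R A).filter fun g : Equiv.Perm V => ∃ i, ∃ y ∈ Y, E (g (u i)) y).card)
        = 4 * (r + 1) ^ 2 * ((GA R A).filter fun g : Equiv.Perm V => ∃ i, ∃ y ∈ Y, E (g (u i)) y).card := by ring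
      _ ≤ 4 * (r + 1) ^ 2 * ∑ q ∈ (Finset.univ : Finset (Fin (r + 1))) ×ˢ Y,
          ((GA R A).filter fun g : Equiv.Perm V => E (g (u q.1)) q.2).card :=
          Nat.mul_le_mul_left _ ((Finset.card_le_card h5).trans Finset.card_biUnion_le)
      _ = ∑ q ∈ (Finset.univ : Finset (Fin (r + 1))) ×ˢ Y,
          4 * (r + 1) ^ 2 * ((GA R A).filter fun g : Equiv.Perm V => E (g (u q.1)) q.2).card := by
          rw [Finset.mul_sum]
      _ ≤ ∑ q ∈ (Finset.univ : Finset (Fin (r + 1))) ×ˢ Y, (GA R A).card :=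
          Finset.sum_le_sum (fun q _ => h1 q.1 q.2)
      _ = (r + 1) * (Y.card * (GA R A).card) := by
          rw [Finset.sum_const, Finset.card_product, Finset.card_univ, Fintype.card_fin, smul_eq_mul]
          ring
  exact Nat.le_of_mul_le_mul_left h6 (Nat.succ_pos r)

open Classical in
/-- moving the part of a tuple in `I` -/
lemma move {r m Δ T : ℕ} (R : Interp S ar V) {A A' : Finset V} {E : V → V → Prop}
    (hG : Gd r R A E m Δ T) (hA : A ⊆ A') {u : Fin (r + 1) → V} (I : Fin (r + 1) → Prop) [DecidablePred I] {i₀ : Fin (r + 1)}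
    (hi₀ : I i₀) (hm : (Finset.univ.image (fun i => if I i then u i else u i₀)).card ≤ m)
    (hO : ∀ i, T < (oA R A' (u i)).card) {s : S} {p : Fin (ar s) → V ⊕ Fin (r + 1)} {g₁ g₂ : Equiv.Perm V}
    (hg₁ : g₁ ∈ GA R A') (hg₂ : g₂ ∈ GA R A') (b : Fin (r + 1) → V)
    (h1 : ∀ i j, I i → ¬ I j → ¬ E (g₁ (u i)) (b j)) (h1' : ∀ i, I i → ∀ w ∈ out p, ¬ E (g₁ (u i)) w)
    (h2 : ∀ i j, I i → ¬ I j → ¬ E (g₂ (u i)) (b j)) (h2' : ∀ i, I i → ∀ w ∈ out p, ¬ E (g₂ (u i)) w) :
    R s (ev (fun i => if I i then g₁ (u i) else b i) p) ↔ R s (ev (fun i => if I i then g₂ (u i) else b i) p) := by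
  -- the part in `I` and the pattern with the rest frozen
  obtain ⟨v, hv⟩ : ∃ v : Fin (r + 1) → V, v = fun i => if I i then u i else u i₀ := ⟨_, rfl⟩
  obtain ⟨p', hp'⟩ : ∃ p' : Fin (ar s) → V ⊕ Fin (r + 1), p' = fun t =>
    Sum.elim (fun w => Sum.inl w) (fun i => if I i then Sum.inr i else Sum.inl (b i)) (p t) := ⟨_, rfl⟩
  have hev : ∀ g : Equiv.Perm V, ev (fun i => if I i then g (u i) else b i) p = ev (g ∘ v) p' := by
    intro g
    funext t
    show Sum.elim id (fun i => if I i then g (u i) else b i) (p t) = Sum.elim id (g ∘ v) (p' t)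
    rw [hp']
    show _ = Sum.elim id (g ∘ v) (Sum.elim (fun w => Sum.inl w) (fun i => if I i then Sum.inr i else Sum.inl (b i)) (p t))
    rcases p t with w | i
    · rfl
    · show (if I i then g (u i) else b i) = Sum.elim id (g ∘ v) (if I i then Sum.inr i else Sum.inl (b i))
      by_cases hi : I i
      · rw [if_pos hi, if_pos hi]
        show g (u i) = g (v i)
        rw [hv]
        show g (u i) = g (if I i then u i else u i₀)
        rw [if_pos hi]
      · rw [if_neg hi, if_neg hi]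
        rfl
  have hout : ∀ w ∈ out p', w ∈ out p ∨ ∃ j, ¬ I j ∧ w = b j := by
    intro w hw
    obtain ⟨t, ht⟩ := mem_out.1 hw
    rw [hp'] at ht
    have ht' : Sum.elim (fun w => Sum.inl w) (fun i => if I i then Sum.inr i else Sum.inl (b i)) (p t) =
      (Sum.inl w : V ⊕ Fin (r + 1)) := ht
    rcases hpt : p t with w' | i
    · rw [hpt] at ht'
      have : w' = w := Sum.inl_injective ht'
      subst this
      exact Or.inl (mem_out.2 ⟨t, hpt⟩)
    · rw [hpt] at ht'
      have ht'' : (if I i then Sum.inr i else Sum.inl (b i)) = (Sum.inl w : V ⊕ Fin (r + 1)) := ht'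
      by_cases hi : I i
      · rw [if_pos hi] at ht''
        exact absurd ht'' (by simp)
      · rw [if_neg hi] at ht''
        exact Or.inr ⟨i, hi, (Sum.inl_injective ht'').symm⟩
  have hvI : ∀ i, ∃ i', I i' ∧ v i = u i' := by
    intro i
    rw [hv]
    by_cases hi : I i
    · exact ⟨i, hi, if_pos hi⟩
    · exact ⟨i₀, hi₀, if_neg hi⟩
  have hnot : ∀ g ∈ GA R A', (∀ i j, I i → ¬ I j → ¬ E (g (u i)) (b j)) →
      (∀ i, I i → ∀ w ∈ out p, ¬ E (g (u i)) w) → ¬ Min R A' (g ∘ v) s p' := by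
    intro g hg k1 k2 hmin
    obtain ⟨w, hw, i, hi⟩ := hG.main A' hA (g ∘ v) (by
      refine le_trans ?_ hm
      rw [← hv]
      have e : Finset.univ.image (g ∘ v) = (Finset.univ.image v).image g := by
        rw [Finset.image_image]
      rw [e]
      exact Finset.card_image_le) (fun i => by
        obtain ⟨i', -, h⟩ := hvI i
        show T < (oA R A' (g (v i))).card
        rw [oA_map hg, h]
        exact hO i') s p' hmin
    obtain ⟨i', hi', h⟩ := hvI i
    have hE : E (g (u i')) w := by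
      rw [← h]
      exact hi
    rcases hout w hw with h3 | ⟨j, hj, rfl⟩
    · exact k2 i' hi' w h3 hE
    · exact k1 i' j hi' hj hE
  have n1 := hnot g₁ hg₁ h1 h1'
  have n2 := hnot g₂ hg₂ h2 h2'
  rw [hev, hev]
  have e : (g₂ * g₁⁻¹ : Equiv.Perm V) ∘ (g₁ ∘ v) = g₂ ∘ v := by
    funext i
    show g₂ (g₁⁻¹ (g₁ (v i))) = g₂ (v i)
    congr 1
    exact g₁.symm_apply_apply (v i)
  have h3 := same R (GS_mul hg₂ (GS_inv hg₁)) n1 (by rw [e]; exact n2)
  rw [e] at h3
  exact h3.symm

open Classical in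
/-- EA7: tuples which split -/
theorem split {r m Δ T T' : ℕ} (har : ∀ s, ar s ≤ r) (R : Interp S ar V) {A A' : Finset V} {E : V → V → Prop}
    (hG : Gd r R A E m Δ T) (hT : T ≤ T') (hT2 : 4 * (r + 1) ^ 2 * Δ ≤ T') (hA : A ⊆ A') {u : Fin (r + 1) → V}
    (hm : (Finset.univ.image u).card ≤ m + 1) (hu : ¬ Conn E u)
    (hO : ∀ i, T' < (oA R A' (u i)).card) {s : S} {p : Fin (ar s) → V ⊕ Fin (r + 1)} (hp : Min R A' u s p) :
    ∃ w ∈ out p, ∃ i, E (u i) w := by
  by_contra hcon
  push Not at hcon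
  unfold Conn at hu
  push Not at hu
  obtain ⟨I, ⟨i₀, hi₀⟩, ⟨j₀, hj₀⟩, hIJ⟩ := hu
  have hinv : ∀ h ∈ GA R A', ∀ x y, E x y → E (h x) (h y) := by
    intro h hh
    refine hG.inv h (mem_GS.2 ⟨(mem_GS.1 hh).1, fun x hx => (mem_GS.1 hh).2 x (hA hx)⟩)
  have hOT : ∀ i, T < (oA R A' (u i)).card := fun i => lt_of_le_of_lt hT (hO i)
  -- the cardinalities of the parts
  have hne : ∀ i j, I i → ¬ I j → u i ≠ u j := by
    intro i j hi hj h
    apply hIJ i j hi hj
    rw [h]
    exact hG.refl _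
  have hmI : (Finset.univ.image (fun i => if I i then u i else u i₀)).card ≤ m := by
    have h1 : Finset.univ.image (fun i => if I i then u i else u i₀) ⊆ (Finset.univ.image u).erase (u j₀) := by
      intro z hz
      obtain ⟨i, -, rfl⟩ := Finset.mem_image.1 hz
      by_cases hi : I i
      · rw [if_pos hi]
        exact Finset.mem_erase.2 ⟨hne i j₀ hi hj₀, Finset.mem_image_of_mem u (Finset.mem_univ _)⟩
      · rw [if_neg hi]
        exact Finset.mem_erase.2 ⟨hne i₀ j₀ hi₀ hj₀, Finset.mem_image_of_mem u (Finset.mem_univ _)⟩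
    have h2 := Finset.card_le_card h1
    rw [Finset.card_erase_of_mem (Finset.mem_image_of_mem u (Finset.mem_univ _))] at h2
    omega
  have hmJ : (Finset.univ.image (fun i => if ¬ I i then u i else u j₀)).card ≤ m := by
    have h1 : Finset.univ.image (fun i => if ¬ I i then u i else u j₀) ⊆ (Finset.univ.image u).erase (u i₀) := by
      intro z hz
      obtain ⟨i, -, rfl⟩ := Finset.mem_image.1 hz
      by_cases hi : I i
      · rw [if_neg (not_not.2 hi)]
        exact Finset.mem_erase.2 ⟨(hne i₀ j₀ hi₀ hj₀).symm, Finset.mem_image_of_mem u (Finset.mem_univ _)⟩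
      · rw [if_pos hi]
        exact Finset.mem_erase.2 ⟨(hne i₀ i hi₀ hi).symm, Finset.mem_image_of_mem u (Finset.mem_univ _)⟩
    have h2 := Finset.card_le_card h1
    rw [Finset.card_erase_of_mem (Finset.mem_image_of_mem u (Finset.mem_univ _))] at h2
    omega
  have hG1 : 0 < (GA R A').card := Finset.card_pos.2 ⟨1, mem_GS.2 ⟨(AuG R).one_mem, fun _ _ => rfl⟩⟩
  -- the elements which move `u` away from `out p` give the same value
  have hgood : ∀ h ∈ GA R A', (¬ ∃ i, ∃ y ∈ out p, E (h (u i)) y) → (R s (ev (h ∘ u) p) ↔ R s (ev u p)) := by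
    intro h hh hfar
    push Not at hfar
    obtain ⟨Y, hY⟩ : ∃ Y : Finset V, Y = Finset.univ.image u ∪ Finset.univ.image (h ∘ u) ∪ out p := ⟨_, rfl⟩
    have hYc : Y.card ≤ 3 * r + 2 := by
      have k1 : (Finset.univ.image u).card ≤ r + 1 := by
        refine Finset.card_image_le.trans ?_
        rw [Finset.card_univ, Fintype.card_fin]
      have k2 : (Finset.univ.image (h ∘ u)).card ≤ r + 1 := by
        refine Finset.card_image_le.trans ?_
        rw [Finset.card_univ, Fintype.card_fin]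
      have k3 : (out p).card ≤ r := (card_out p).trans (har s)
      have k4 := Finset.card_union_le (Finset.univ.image u ∪ Finset.univ.image (h ∘ u)) (out p)
      have k5 := Finset.card_union_le (Finset.univ.image u) (Finset.univ.image (h ∘ u))
      rw [hY]
      omega
    have hex : ∃ g ∈ GA R A', ∀ i, ∀ y ∈ Y, ¬ E (g (u i)) y := by
      by_contra hno
      push Not at hno
      have k1 : ((GA R A').filter fun g : Equiv.Perm V => ∃ i, ∃ y ∈ Y, E (g (u i)) y) = GA R A' := by
        rw [Finset.filter_eq_self]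
        intro g hg
        exact hno g hg
      have k2 := bad_card (R := R) (A := A') hG.refl hG.symm hG.deg hT2 hO Y
      rw [k1] at k2
      have k3 : Y.card * (GA R A').card ≤ (3 * r + 2) * (GA R A').card := Nat.mul_le_mul_right _ hYc
      have k4 : (3 * r + 2) * (GA R A').card < 4 * (r + 1) * (GA R A').card :=
        Nat.mul_lt_mul_of_pos_right (by omega) hG1
      omega
    obtain ⟨g, hg, hgY⟩ := hex
    have hgu : ∀ i j, ¬ E (g (u i)) (u j) := fun i j => hgY i _ (by
      rw [hY]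
      exact Finset.mem_union_left _ (Finset.mem_union_left _ (Finset.mem_image_of_mem u (Finset.mem_univ _))))
    have hgh : ∀ i j, ¬ E (g (u i)) (h (u j)) := fun i j => hgY i _ (by
      rw [hY]
      exact Finset.mem_union_left _ (Finset.mem_union_right _
        (Finset.mem_image_of_mem (h ∘ u) (Finset.mem_univ j))))
    have hgp : ∀ i, ∀ w ∈ out p, ¬ E (g (u i)) w := fun i w hw => hgY i _ (by
      rw [hY]
      exact Finset.mem_union_right _ hw)
    have hone : (1 : Equiv.Perm V) ∈ GA R A' := mem_GS.2 ⟨(AuG R).one_mem, fun _ _ => rfl⟩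
    -- the three moves
    have m1 := move R hG hA (u := u) I hi₀ hmI hOT (s := s) (p := p) hone hg u
      (fun i j hi hj => hIJ i j hi hj) (fun i _ w hw => hcon w hw i) (fun i j _ _ => hgu i j) (fun i _ w hw => hgp i w hw)
    have m2 := move R hG hA (u := u) (fun i => ¬ I i) hj₀ hmJ hOT (s := s) (p := p) hone hh (fun i => g (u i))
      (fun i j hi hj hE => hgu j i (hG.symm _ _ hE)) (fun i _ w hw => hcon w hw i)
      (fun i j hi hj hE => hgh j i (hG.symm _ _ hE)) (fun i _ w hw => hfar i w hw)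
    have m3 := move R hG hA (u := u) I hi₀ hmI hOT (s := s) (p := p) hg hh (fun i => h (u i))
      (fun i j _ _ => hgh i j) (fun i _ w hw => hgp i w hw)
      (fun i j hi hj hE => hIJ i j hi hj (by
        have k := hinv h⁻¹ (GS_inv hh) _ _ hE
        have e : ∀ x, h⁻¹ (h x) = x := fun x => h.symm_apply_apply x
        rwa [e, e] at k)) (fun i _ w hw => hfar i w hw)
    have e0 : (fun i => if I i then (1 : Equiv.Perm V) (u i) else u i) = u := by
      funext i
      split_ifs <;> rfl
    have e1 : (fun i => if ¬ I i then (1 : Equiv.Perm V) (u i) else g (u i)) =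
        fun i => if I i then g (u i) else u i := by
      funext i
      by_cases hi : I i
      · rw [if_neg (not_not.2 hi), if_pos hi]
      · rw [if_pos hi, if_neg hi]
        rfl
    have e2 : (fun i => if ¬ I i then h (u i) else g (u i)) = fun i => if I i then g (u i) else h (u i) := by
      funext i
      by_cases hi : I i
      · rw [if_neg (not_not.2 hi), if_pos hi]
      · rw [if_pos hi, if_neg hi]
    have e3 : (fun i => if I i then h (u i) else h (u i)) = h ∘ u := by
      funext i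
      split_ifs <;> rfl
    rw [e0] at m1
    rw [e1, e2] at m2
    rw [e3] at m3
    exact (m1.trans (m2.trans m3)).symm
  -- so `p` is not a minority pattern
  have hb := bad_card (R := R) (A := A') hG.refl hG.symm hG.deg hT2 hO (out p)
  have k3 : (out p).card ≤ r := (card_out p).trans (har s)
  have hsum := Finset.card_filter_add_card_filter_not (s := GA R A')
    (fun g : Equiv.Perm V => ∃ i, ∃ y ∈ out p, E (g (u i)) y)
  have hsub : ((GA R A').filter fun g : Equiv.Perm V => ¬ ∃ i, ∃ y ∈ out p, E (g (u i)) y).card ≤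
      ((GA R A').filter fun h : Equiv.Perm V => (R s (ev (h ∘ u) p) ↔ R s (ev u p))).card := by
    apply Finset.card_le_card
    intro g hg
    have hg' := Finset.mem_filter.1 hg
    exact Finset.mem_filter.2 ⟨hg'.1, hgood g hg'.1 hg'.2⟩
  unfold Min at hp
  have k5 : (out p).card * (GA R A').card ≤ r * (GA R A').card := Nat.mul_le_mul_right _ k3
  obtain ⟨x, hx⟩ : ∃ x, x = ((GA R A').filter fun g : Equiv.Perm V => ∃ i, ∃ y ∈ out p, E (g (u i)) y).card := ⟨_, rfl⟩
  obtain ⟨y, hy⟩ : ∃ y, y = ((GA R A').filter fun g : Equiv.Perm V => ¬ ∃ i, ∃ y ∈ out p, E (g (u i)) y).card := ⟨_, rfl⟩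
  obtain ⟨G, hGd⟩ : ∃ G, G = (GA R A').card := ⟨_, rfl⟩
  rw [← hx, ← hy, ← hGd] at hsum
  rw [← hy] at hsub
  rw [← hx, ← hGd] at hb
  rw [← hGd] at hp k5 hG1
  have k6 : 4 * (r + 1) * x ≤ r * G := hb.trans k5
  have k7 : 4 * x < G ∨ x = 0 := by
    rcases Nat.eq_zero_or_pos x with h0 | h0
    · exact Or.inr h0
    · left
      by_contra hc
      push Not at hc
      have : (r + 1) * G ≤ (r + 1) * (4 * x) := Nat.mul_le_mul_left _ hc
      have e : (r + 1) * (4 * x) = 4 * (r + 1) * x := by ring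
      rw [e] at this
      have e2 : (r + 1) * G = r * G + G := by ring
      omega
  have hp' : 2 * ((GA R A').filter fun h : Equiv.Perm V => (R s (ev (h ∘ u) p) ↔ R s (ev u p))).card ≤ G := by
    convert hp using 2
  omega

end Pool.Agent.Helper6.EA
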