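import Pool.Agent.Helper58.EA.Round
import Pool.Agent.Helper29.EA.RoundsC
import Pool.Agent.Helper85.EA.StepR
import Pool.Agent.Helper20.EA.Fam
import Pool.Agent.Helper40.EA.Key
import Pool.Agent.Helper20.EA.BorderA

/-!
# The exact border of the factorial layer, for all arities
-/

set_option autoImplicit false

namespace Pool.Agent.Helper6.EA

open FirstOrder Pool.Agent.Helper20.Spectra Pool.Agent.Helper31.QD Pool.Agent.Helper38.MC
  Pool.Agent.Helper58.QD Pool.Agent.Helper40.MC Pool.Agent.Helper6.MC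

theorem stepAll (r : ℕ) : StmtStepR r :=
  stepR_of
    (fun _ _ har _ _ R _ _ _ _ hq hs hl => rounds_of_round
      (fun _ _ har _ _ R _ _ _ _ _ hq hs U hU hB hl => round har R hq hs U hU hB hl) har R hq hs hl)
    (fun _ _ har _ _ _ R _ _ _ _ hG _ _ _ hk hO => small_fam har R hG hk hO)

theorem cardGA : StmtCardGA := fun _ _ _ _ R _ _ _ hs => card_GA_le R hs

theorem keyA_num (r : ℕ) (hNum : StmtNumR r) (a b : ℕ) :
    ∃ K : ℕ, ∀ (S : Type) (ar : S → ℕ), (∀ s, ar s ≤ r) → ∀ (n : ℕ)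
    (R : Interp S ar (Fin n)), (∀ t, 1 ≤ t → ¬ FamR R (a * t + b) t) → Nat.card (AuG R) ≤ K ^ n :=
  keyA_of r (stepAll r) hNum cardGA a b

end Pool.Agent.Helper6.EA
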