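import Pool.Agent.Helper6.EA.Defs

/-!
# Two translates for which a pattern is not a minority pattern give the same value
-/

set_option autoImplicit false

namespace Pool.Agent.Helper6.EA

open FirstOrder Pool.Agent.Helper20.Spectra Pool.Agent.Helper31.QD Pool.Agent.Helper38.MC
  Pool.Agent.Helper58.QD Pool.Agent.Helper40.MC Pool.Agent.Helper6.MC

variable {S : Type} {ar : S → ℕ} {V : Type} [Fintype V]

open Classical in
/-- counting over a translate -/
theorem card_shift {R : Interp S ar V} {A : Finset V} {g : Equiv.Perm V} (hg : g ∈ GA R A)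
    (P : Equiv.Perm V → Prop) :
    ((GA R A).filter fun h : Equiv.Perm V => P (h * g)).card = ((GA R A).filter fun h : Equiv.Perm V => P h).card := by
  apply Finset.card_bij' (fun h _ => h * g) (fun h _ => h * g⁻¹)
  · intro h hh
    rw [Finset.mem_filter] at hh ⊢
    exact ⟨GS_mul hh.1 hg, hh.2⟩
  · intro h hh
    rw [Finset.mem_filter] at hh ⊢
    refine ⟨GS_mul hh.1 (GS_inv hg), ?_⟩
    rw [inv_mul_cancel_right]
    exact hh.2
  · intro h _
    exact mul_inv_cancel_right h g
  · intro h _
    exact inv_mul_cancel_right h g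

theorem same {k : ℕ} (R : Interp S ar V) {A : Finset V} {u : Fin k → V} {g : Equiv.Perm V} (hg : g ∈ GA R A) {s : S}
    {p : Fin (ar s) → V ⊕ Fin k} (h1 : ¬ Min R A u s p) (h2 : ¬ Min R A (g ∘ u) s p) :
    R s (ev (g ∘ u) p) ↔ R s (ev u p) := by
  classical
  by_contra hcon
  unfold Min at h1 h2
  rw [not_le] at h1 h2
  have e : ((GA R A).filter fun h : Equiv.Perm V => (R s (ev (h ∘ (g ∘ u)) p) ↔ R s (ev (g ∘ u) p))).card =
      ((GA R A).filter fun h : Equiv.Perm V => (R s (ev (h ∘ u) p) ↔ R s (ev (g ∘ u) p))).card := by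
    have e0 := card_shift hg (fun h => (R s (ev (h ∘ u) p) ↔ R s (ev (g ∘ u) p)))
    convert e0 using 2
    · ext h
      simp only [Finset.mem_filter]
      exact Iff.rfl
    · ext h
      simp only [Finset.mem_filter]
  have e2 : ((GA R A).filter fun h : Equiv.Perm V => (R s (ev (h ∘ u) p) ↔ R s (ev (g ∘ u) p))) =
      ((GA R A).filter fun h : Equiv.Perm V => ¬ (R s (ev (h ∘ u) p) ↔ R s (ev u p))) := by
    apply Finset.filter_congr
    intro h _
    tauto
  have e3 := Finset.card_filter_add_card_filter_not (s := GA R A)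
    (fun h : Equiv.Perm V => (R s (ev (h ∘ u) p) ↔ R s (ev u p)))
  have h2' : (GA R A).card < 2 * ((GA R A).filter fun h : Equiv.Perm V => ¬ (R s (ev (h ∘ u) p) ↔ R s (ev u p))).card := by
    rw [← e2, ← e]
    convert h2 using 2
  have h1' : (GA R A).card < 2 * ((GA R A).filter fun h : Equiv.Perm V => (R s (ev (h ∘ u) p) ↔ R s (ev u p))).card := by
    convert h1 using 2
  omega

end Pool.Agent.Helper6.EA
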