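import Pool.Agent.Helper6.EA.Split

/-!
# Minority patterns for a larger fixed set
-/

set_option autoImplicit false

namespace Pool.Agent.Helper6.EA

open FirstOrder Pool.Agent.Helper20.Spectra Pool.Agent.Helper31.QD Pool.Agent.Helper38.MC
  Pool.Agent.Helper58.QD Pool.Agent.Helper40.MC Pool.Agent.Helper6.MC

variable {S : Type} {ar : S → ℕ} {V : Type} [Fintype V]

/-- EA5: persistence for a larger fixed set -/
theorem layer6 {r θ : ℕ} (har : ∀ s, ar s ≤ r) (R : Interp S ar V) {A A' : Finset V} (hA : A ⊆ A')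
    (U : (Fin (r + 1) → V) → Prop) (hU : ∀ h ∈ GA R A, ∀ u, U u → U (h ∘ u)) {N : (Fin (r + 1) → V) → Finset V}
    (hN : ∀ u, U u → ∀ (s : S) (p : Fin (ar s) → V ⊕ Fin (r + 1)), Min R A u s p → ∃ w ∈ out p, w ∈ N u)
    {u : Fin (r + 1) → V} (hu : U u) (hO : 2 * r * θ < (oA R A' (u 0)).card) {s : S}
    {p : Fin (ar s) → V ⊕ Fin (r + 1)} (hp : Min R A' u s p) :
    ∃ w ∈ out p, w ∈ N u ∨ θ < Nat.card {u' : Fin (r + 1) → V // U u' ∧ w ∈ N u'} := by
  classical
  by_cases hmin : Min R A u s p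
  · obtain ⟨w, hw, h⟩ := hN u hu s p hmin
    exact ⟨w, hw, Or.inl h⟩
  by_contra hcon
  push Not at hcon
  have hsub : ∀ h ∈ GA R A', h ∈ GA R A := fun h hh =>
    mem_GS.2 ⟨(mem_GS.1 hh).1, fun x hx => (mem_GS.1 hh).2 x (hA hx)⟩
  have hG1 : 0 < (GA R A').card := Finset.card_pos.2 ⟨1, mem_GS.2 ⟨(AuG R).one_mem, fun _ _ => rfl⟩⟩
  obtain ⟨F, hF⟩ : ∃ F : Finset (Equiv.Perm V),
    F = (GA R A').filter (fun h : Equiv.Perm V => ¬ (R s (ev (h ∘ u) p) ↔ R s (ev u p))) := ⟨_, rfl⟩
  have h1 : (GA R A').card ≤ 2 * F.card := by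
    have e3 := Finset.card_filter_add_card_filter_not (s := GA R A')
      (fun h : Equiv.Perm V => (R s (ev (h ∘ u) p) ↔ R s (ev u p)))
    have hp' : 2 * ((GA R A').filter fun h : Equiv.Perm V => (R s (ev (h ∘ u) p) ↔ R s (ev u p))).card ≤
        (GA R A').card := by
      unfold Min at hp
      convert hp using 2
    rw [hF]
    omega
  have h2 : F ⊆ (out p).biUnion (fun w => (GA R A').filter (fun h : Equiv.Perm V => w ∈ N (h ∘ u))) := by
    intro h hh
    rw [hF, Finset.mem_filter] at hh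
    have h3 : Min R A (h ∘ u) s p := by
      by_contra hno
      exact hh.2 (same R (hsub h hh.1) hmin hno)
    obtain ⟨w, hw, hwN⟩ := hN (h ∘ u) (hU h (hsub h hh.1) u hu) s p h3
    rw [Finset.mem_biUnion]
    exact ⟨w, hw, Finset.mem_filter.2 ⟨hh.1, hwN⟩⟩
  have h4 : ∀ w ∈ out p, ((GA R A').filter (fun h : Equiv.Perm V => w ∈ N (h ∘ u))).card *
      (oA R A' (u 0)).card ≤ θ * (GA R A').card := by
    intro w hw
    have hθ := (hcon w hw).2
    obtain ⟨W, hW⟩ : ∃ W : Finset (Fin (r + 1) → V), W = Finset.univ.filter (fun u' => U u' ∧ w ∈ N u') := ⟨_, rfl⟩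
    have hWc : W.card ≤ θ := by
      rw [Nat.card_eq_fintype_card, Fintype.card_subtype] at hθ
      rw [hW]
      exact hθ
    have h5 : (GA R A').filter (fun h : Equiv.Perm V => w ∈ N (h ∘ u)) ⊆
        W.biUnion (fun u' => (GA R A').filter (fun g : Equiv.Perm V => g (u 0) = u' 0)) := by
      intro h hh
      rw [Finset.mem_filter] at hh
      rw [Finset.mem_biUnion]
      refine ⟨h ∘ u, ?_, Finset.mem_filter.2 ⟨hh.1, rfl⟩⟩
      rw [hW, Finset.mem_filter]
      exact ⟨Finset.mem_univ _, hU h (hsub h hh.1) u hu, hh.2⟩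
    calc ((GA R A').filter (fun h : Equiv.Perm V => w ∈ N (h ∘ u))).card * (oA R A' (u 0)).card ≤
        (∑ u' ∈ W, ((GA R A').filter (fun g : Equiv.Perm V => g (u 0) = u' 0)).card) * (oA R A' (u 0)).card :=
          Nat.mul_le_mul_right _ ((Finset.card_le_card h5).trans Finset.card_biUnion_le)
      _ = ∑ u' ∈ W, ((GA R A').filter (fun g : Equiv.Perm V => g (u 0) = u' 0)).card * (oA R A' (u 0)).card :=
          Finset.sum_mul _ _ _
      _ ≤ ∑ u' ∈ W, (GA R A').card := Finset.sum_le_sum (fun u' _ => by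
          have := stab_card (AuG R) A' (u 0) (u' 0)
          convert this using 2)
      _ = W.card * (GA R A').card := by rw [Finset.sum_const, smul_eq_mul]
      _ ≤ θ * (GA R A').card := Nat.mul_le_mul_right _ hWc
  have h6 : F.card * (oA R A' (u 0)).card ≤ r * (θ * (GA R A').card) := by
    calc F.card * (oA R A' (u 0)).card ≤
        (∑ w ∈ out p, ((GA R A').filter (fun h : Equiv.Perm V => w ∈ N (h ∘ u))).card) * (oA R A' (u 0)).card :=
          Nat.mul_le_mul_right _ ((Finset.card_le_card h2).trans Finset.card_biUnion_le)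
      _ = ∑ w ∈ out p, ((GA R A').filter (fun h : Equiv.Perm V => w ∈ N (h ∘ u))).card * (oA R A' (u 0)).card :=
          Finset.sum_mul _ _ _
      _ ≤ ∑ w ∈ out p, θ * (GA R A').card := Finset.sum_le_sum h4
      _ = (out p).card * (θ * (GA R A').card) := by rw [Finset.sum_const, smul_eq_mul]
      _ ≤ r * (θ * (GA R A').card) := Nat.mul_le_mul_right _ ((card_out p).trans (har s))
  have h7 : (GA R A').card * (oA R A' (u 0)).card ≤ (GA R A').card * (2 * r * θ) := by
    calc (GA R A').card * (oA R A' (u 0)).card ≤ 2 * F.card * (oA R A' (u 0)).card := Nat.mul_le_mul_right _ h1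
      _ = 2 * (F.card * (oA R A' (u 0)).card) := by ring
      _ ≤ 2 * (r * (θ * (GA R A').card)) := Nat.mul_le_mul_left _ h6
      _ = (GA R A').card * (2 * r * θ) := by ring
  have h8 := Nat.le_of_mul_le_mul_left h7 hG1
  omega

end Pool.Agent.Helper6.EA
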