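import Pool.Agent.Helper40.EA.Bd
import Pool.Agent.Helper40.EA.Key
import Pool.Agent.Helper96.EK.Num

/-!
# EA13: the numbers
-/

set_option autoImplicit false

namespace Pool.Agent.Helper6.EA

lemma quad_le6 (C c : ℕ) : ∀ j, 11 + C + c ≤ j → C * (j + 1) ^ 2 + c * j ≤ 2 ^ j := by
  have h0 : ∀ a, 11 ≤ a → (a + 1) ^ 3 ≤ 2 ^ a := by
    intro a ha
    induction a, ha using Nat.le_induction with
    | base => norm_num
    | succ a ha ih =>
      rw [pow_succ 2 a]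
      have : (a + 1 + 1) ^ 3 ≤ 2 * (a + 1) ^ 3 := by
        have h : 11 * (a * a) ≤ a * (a * a) := Nat.mul_le_mul_right _ ha
        have h2 : 11 * a ≤ a * a := Nat.mul_le_mul_right _ ha
        have e1 : (a + 1 + 1) ^ 3 = a * (a * a) + 6 * (a * a) + 12 * a + 8 := by ring
        have e2 : 2 * (a + 1) ^ 3 = 2 * (a * (a * a)) + 6 * (a * a) + 6 * a + 2 := by ring
        rw [e1, e2]
        omega
      omega
  intro j hj
  have h1 : C * (j + 1) ^ 2 + c * j ≤ (C + c) * (j + 1) ^ 2 := by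
    have h2 : c * j ≤ c * (j + 1) ^ 2 := Nat.mul_le_mul_left c (by nlinarith)
    calc C * (j + 1) ^ 2 + c * j ≤ C * (j + 1) ^ 2 + c * (j + 1) ^ 2 := Nat.add_le_add_left h2 _
      _ = _ := by ring
  have h3 : (C + c) * (j + 1) ^ 2 ≤ (j + 1) ^ 3 := by
    calc (C + c) * (j + 1) ^ 2 ≤ (j + 1) * (j + 1) ^ 2 := Nat.mul_le_mul_right _ (by omega)
      _ = _ := by ring
  exact h1.trans (h3.trans (h0 j (by omega)))

/-- EA13 -/
theorem numR6 (r : ℕ) : StmtNumR r := by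
  have h4 : Bd40 fun j => 4 ^ j := by
    obtain ⟨c, hc⟩ := bd_two_pow 2
    refine ⟨c, fun j hj => ?_⟩
    have e : (4 : ℕ) ^ j = 2 ^ (2 * j) := by
      rw [pow_mul]
      norm_num
    show 4 ^ j ≤ _
    rw [e]
    exact hc j hj
  obtain ⟨c1, hc1⟩ := (((bd_cB r (bd_dE r r)).pow 2).mul
    ((((bd_const r).mul (bd_two_pow (r + 1))).add (bd_const 1)).pow r)).mul bd_q
  obtain ⟨c3, hc3⟩ := (h4.add (bd_const 1)).mul (((bd_dE r r).add (bd_const 1)).pow 2)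
  refine ⟨3 * c3 + 1, by omega, fun a b => ?_⟩
  obtain ⟨c4, hc4⟩ := h4.mul ((((((bd_const a).mul h4).add (bd_const b)).add (bd_tE r r)).add
    (bd_const (3 * r))).add (bd_const 3))
  refine ⟨11 + (3 * c3 + 1) + c1 + c4, by omega, fun j hj => ?_⟩
  have hj1 : 1 ≤ j := by omega
  refine ⟨?_, ?_, ?_, ?_⟩
  · obtain ⟨Q, hQ⟩ : ∃ Q, Q = (2 ^ j) ^ r := ⟨_, rfl⟩
    have hQ1 : 1 ≤ Q := by
      rw [hQ]
      exact Nat.one_le_pow _ _ (by positivity)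
    have hl : 2 ^ ((r + 1) * j) = Q * 2 ^ j := by
      rw [hQ, ← pow_mul, ← pow_add]
      congr 1
      ring
    have h1 := Pool.Agent.Helper12.EK.num_aux3 hQ1 (2 ^ j)
    have h2 := hc1 j hj1
    have h3 := quad_le6 (3 * c3 + 1) c1 j (by omega)
    obtain ⟨X, hX⟩ : ∃ X, X = cB r (dE r (2 ^ ((r + 1) * j)) (2 ^ j) r) ^ 2 * (r * 2 ^ ((r + 1) * j) + 1) ^ r * 2 ^ j :=
      ⟨_, rfl⟩
    have h2' : X ≤ 2 ^ (c1 * j) := by
      rw [hX]
      exact h2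
    rw [← hQ]
    calc 2 ^ ((3 * c3 + 1) * (j + 1) ^ 2) * cB r (dE r (2 ^ ((r + 1) * j)) (2 ^ j) r) ^ 2 *
          (r * 2 ^ ((r + 1) * j) + 1) ^ r * 2 ^ j * (Q - 1) ^ 2 ^ ((r + 1) * j) =
        2 ^ ((3 * c3 + 1) * (j + 1) ^ 2) * X * (Q - 1) ^ 2 ^ ((r + 1) * j) := by rw [hX]; ring
      _ = 2 ^ ((3 * c3 + 1) * (j + 1) ^ 2) * X * (Q - 1) ^ (Q * 2 ^ j) := by rw [hl]
      _ ≤ 2 ^ ((3 * c3 + 1) * (j + 1) ^ 2) * 2 ^ (c1 * j) * (Q - 1) ^ (Q * 2 ^ j) :=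
          Nat.mul_le_mul_right _ (Nat.mul_le_mul_left _ h2')
      _ = 2 ^ ((3 * c3 + 1) * (j + 1) ^ 2 + c1 * j) * (Q - 1) ^ (Q * 2 ^ j) := by rw [pow_add]
      _ ≤ 2 ^ 2 ^ j * (Q - 1) ^ (Q * 2 ^ j) :=
          Nat.mul_le_mul_right _ (Nat.pow_le_pow_right (by norm_num) h3)
      _ ≤ Q ^ (Q * 2 ^ j) := h1
      _ = Q ^ 2 ^ ((r + 1) * j) := by rw [hl]
  · have hq : 1 ≤ 2 ^ j := Nat.one_le_two_pow
    have e4 : 4 ^ j = 2 ^ j * 2 ^ j := by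
      rw [← mul_pow]
      norm_num
    have h1 := Pool.Agent.Helper12.EK.num_aux4 hq (t := 2 ^ j) (u := j) Nat.lt_two_pow_self.le
    rw [← e4] at h1
    rw [mul_comm]
    exact h1
  · have h1 := hc3 j hj1
    have h2 : Nat.log 2 (4 ^ j) = 2 * j := by
      have e42 : (4 : ℕ) ^ j = 2 ^ (2 * j) := by
        rw [pow_mul]
        norm_num
      rw [e42]
      exact Nat.log_pow (by norm_num) _
    rw [h2]
    calc ((4 ^ j + 1) * (dE r (2 ^ ((r + 1) * j)) (2 ^ j) r + 1) ^ 2) ^ (2 * j + 1) ≤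
        (2 ^ (c3 * j)) ^ (2 * j + 1) := Nat.pow_le_pow_left h1 _
      _ = 2 ^ (c3 * j * (2 * j + 1)) := by rw [← pow_mul]
      _ ≤ 2 ^ ((3 * c3 + 1) * j ^ 2) := by
          apply Nat.pow_le_pow_right (by norm_num)
          have h5 : c3 * j * (2 * j + 1) ≤ c3 * j * (3 * j) := Nat.mul_le_mul_left _ (by omega)
          have h6 : c3 * j * (3 * j) = 3 * c3 * j ^ 2 := by ring
          have h7 : (3 * c3 + 1) * j ^ 2 = 3 * c3 * j ^ 2 + j ^ 2 := by ring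
          omega
  · have h1 := hc4 j hj1
    refine le_trans (le_of_eq ?_) (h1.trans (Nat.pow_le_pow_right (by norm_num) ?_))
    · ring
    · have h5 : c4 * j ≤ j * j := Nat.mul_le_mul_right _ (by omega)
      have h6 : 1 * j ^ 2 ≤ (3 * c3 + 1) * j ^ 2 := Nat.mul_le_mul_right _ (by omega)
      have h7 : j * j = 1 * j ^ 2 := by ring
      omega

end Pool.Agent.Helper6.EA
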