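import Pool.Agent.Helper6.EA.Main
import Pool.Agent.Helper6.EA.NumR

/-!
# The exact border for all arities
-/

set_option autoImplicit false

namespace Pool.Agent.Helper6.EA

open FirstOrder Pool.Agent.Helper20.Spectra Pool.Agent.Helper31.QD Pool.Agent.Helper38.MC
  Pool.Agent.Helper58.QD Pool.Agent.Helper40.MC Pool.Agent.Helper6.MC

/-- EA15: for all `r`, `a`, `b` there is `K` such that every structure with `n` points and relations of arity at most `r`
with more than `K ^ n` automorphisms has for some `t ≥ 1` a homogeneous family of `a t + b` blocks of `t` points -/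
theorem keyA (r a b : ℕ) : ∃ K : ℕ, ∀ (S : Type) (ar : S → ℕ), (∀ s, ar s ≤ r) → ∀ (n : ℕ)
    (R : Interp S ar (Fin n)), (∀ t, 1 ≤ t → ¬ FamR R (a * t + b) t) → Nat.card (AuG R) ≤ K ^ n :=
  keyA_num r (numR6 r) a b

/-- the exact border for every first-order sentence -/
theorem borderAll (S : Type) [Finite S] (ar : S → ℕ) (χ : (RelLang S ar).Sentence) :
    ∃ K : ℕ, (∀ᶠ n : ℕ in Filter.atTop, count χ n * K ^ n ≤ n.factorial) →
      ∃ k, FinAP k (Pool.Agent.Helper40.MC.spec χ) :=
  borderA keyA S ar χ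

/-- the form with all `K` -/
theorem borderAll2 (S : Type) [Finite S] (ar : S → ℕ) (χ : (RelLang S ar).Sentence)
    (h : ∀ K : ℕ, ∀ᶠ n : ℕ in Filter.atTop, count χ n * K ^ n ≤ n.factorial) :
    ∃ k, FinAP k (Pool.Agent.Helper40.MC.spec χ) := by
  obtain ⟨K, hK⟩ := borderAll S ar χ
  exact hK (h K)

end Pool.Agent.Helper6.EA
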