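import Pool.Agent.Helper38.MC.P4
import Pool.Agent.Helper12.EK.Defs
import Pool.Agent.Helper6.MC.Sharp1

/-!
# The exact border for all arities: definitions
-/

set_option autoImplicit false

namespace Pool.Agent.Helper6.EA

open FirstOrder Pool.Agent.Helper20.Spectra Pool.Agent.Helper31.QD Pool.Agent.Helper38.MC
  Pool.Agent.Helper58.QD Pool.Agent.Helper40.MC Pool.Agent.Helper6.MC
open Pool.Agent.Helper12.EK (Gr Ball Cmp)

variable {S : Type} {ar : S → ℕ} {V : Type} [Fintype V]

/-- the automorphisms which fix `A` pointwise (a finite set of permutations) -/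
noncomputable abbrev GA (R : Interp S ar V) (A : Finset V) : Finset (Equiv.Perm V) := GS (AuG R) A

/-- orbits -/
noncomputable abbrev oA (R : Interp S ar V) (A : Finset V) (x : V) : Finset V :=
  orb (AuG R ⊓ fixP (A : Set V)) x

open Classical in
/-- `p` is a minority pattern of `u`: at most half of the elements `h` of the group give the same value at `h ∘ u` -/
def Min {k : ℕ} (R : Interp S ar V) (A : Finset V) (u : Fin k → V) (s : S) (p : Fin (ar s) → V ⊕ Fin k) : Prop :=
  2 * ((GA R A).filter fun h : Equiv.Perm V => (R s (ev (h ∘ u) p) ↔ R s (ev u p))).card ≤ (GA R A).card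

/-- covers, for all larger fixed sets -/
def Cov {r : ℕ} (R : Interp S ar V) (A : Finset V) (U : (Fin (r + 1) → V) → Prop) (L : ℕ) : Prop :=
  ∀ A' : Finset V, A ⊆ A' → ∀ h ∈ GA R A', ∀ u : Fin (r + 1) → V, U u → u 0 ∉ A' →
    ∃ C : Finset V, (∀ w ∈ C, w ∉ A') ∧ C.card ≤ L ∧
      ∀ (s : S) (p : Fin (ar s) → V ⊕ Fin (r + 1)), Dis R u (h ∘ u) s p → ∃ w ∈ out p, w ∈ C

/-- the connected tuples -/
def Conn {k : ℕ} (E : V → V → Prop) (u : Fin k → V) : Prop :=
  ∀ I : Fin k → Prop, (∃ i, I i) → (∃ j, ¬ I j) → ∃ i j, I i ∧ ¬ I j ∧ E (u i) (u j)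

open Classical in
/-- a good graph: minority patterns of tuples of at most `m` elements with large orbits meet the neighbourhood of the tuple,
for all larger fixed sets `A'` -/
structure Gd (r : ℕ) (R : Interp S ar V) (A : Finset V) (E : V → V → Prop) (m Δ T : ℕ) : Prop where
  refl : ∀ x, E x x
  symm : ∀ x y, E x y → E y x
  inv : ∀ h ∈ GA R A, ∀ x y, E x y → E (h x) (h y)
  deg : ∀ x, (Finset.univ.filter (fun y => E x y)).card ≤ Δ
  main : ∀ A', A ⊆ A' → ∀ u : Fin (r + 1) → V, (Finset.univ.image u).card ≤ m → (∀ i, T < (oA R A' (u i)).card) →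
    ∀ (s : S) (p : Fin (ar s) → V ⊕ Fin (r + 1)), Min R A' u s p → ∃ w ∈ out p, ∃ i, E (u i) w

/-- the constants of one round: cover bound, in-degree, degree, threshold -/
def cL (r l : ℕ) : ℕ := (r * l + 1) ^ r
def cθ (r l B q : ℕ) : ℕ := 2 * r * cL r l * B * q
def cD (r l B q : ℕ) : ℕ := (r + 1) * (2 * r * cL r l * B + cθ r l B q)
def cT (r l B q : ℕ) : ℕ := 2 * r * cθ r l B q + 1

/-- number of connected tuples with given first element -/
def cB (r Δ : ℕ) : ℕ := (Δ ^ r) ^ (r + 1)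

/-- degree after `m` rounds -/
def dE (r l q : ℕ) : ℕ → ℕ
  | 0 => 1
  | m + 1 => dE r l q m + cD r l (cB r (dE r l q m)) q

/-- threshold after `m` rounds -/
def tE (r l q : ℕ) : ℕ → ℕ
  | 0 => 0
  | m + 1 => tE r l q m + cT r l (cB r (dE r l q m)) q + 4 * (r + 1) ^ 2 * dE r l q m

end Pool.Agent.Helper6.EA
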